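import Pool.Agent.Helper9.Ram.Energy3

set_option autoImplicit false

namespace Pool.Agent.Helper9.Ram

open Pool.Agent.Helper10.Ram Pool.Agent.Helper68.Ram
open Pool.Agent.Helper50.Ram (den_pos act_mem act_mul act_one mem_Gam)
open Complex MeasureTheory Topology Filter

theorem ofReal_aem {f : Pt → ℝ} (hf : ContinuousOn f UH) : AEMeasurable f hyp := by
  have h : AEMeasurable f (volume.restrict UH) := hf.aemeasurable isOpen_UH.measurableSet
  unfold hyp
  exact h.mono_ac (withDensity_absolutelyContinuous _ _)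

/-- the basic inequality at cut-off height `n`: for every `ε > 0` both the real and the
imaginary part of the energy identity are controlled -/
theorem basic {R : Subring ℂ} (hR : NiceRing R) {κ : Pt → ℝ} {C a : ℝ} (hK : Kap R κ C a)
    {ι : Type} [Fintype ι] {u : ι → Pt → ℂ} (hS : Sys R ι u) {lam : ℂ}
    (heig : ∀ i, WeakEig lam (u i)) {D : ℝ} (hD : ∀ t, |t * deriv bt t| ≤ D)
    (hA : Integrable (fun p => κ p * Af u p) hyp) {n : ℝ} (hn : 1 / a ≤ n) {ε : ℝ} (hε : 0 < ε) :
    ∃ c : ℂ,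
      ((∫ p, κ p * chi n p ^ 2 * Bf u p ∂hyp : ℝ) : ℂ) + c
        = lam * ((∫ p, κ p * chi n p ^ 2 * Af u p ∂hyp : ℝ) : ℂ) ∧
      ‖c‖ ≤ ε * (∫ p, κ p * chi n p ^ 2 * Bf u p ∂hyp)
        + ε⁻¹ * (D ^ 2 * ∫ p, Set.indicator {q : Pt | n ≤ q.2} (fun q => κ q * Af u q) p ∂hyp) := by
  have ha := hK.pos
  have hn0 : 0 < n := lt_of_lt_of_le (by positivity) hn
  have hu := smooth1 hS
  set K := box C a (2 * n) with hKdef
  have hKc : IsCompact K := isCompact_box _ _ _
  have hKU : K ⊆ UH := box_subset ha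
  set η : Pt → ℝ := fun p => κ p * chi n p ^ 2 with hη
  have hχC := contDiff_chi n
  have hηC : ContDiff ℝ 1 η := hK.smooth.mul (hχC.pow 2)
  have hη0 : ∀ p, p ∉ K → η p = 0 := by
    intro p hp
    by_contra hne
    have h1 : κ p ≠ 0 := fun h => hne (by simp only [hη]; rw [h, zero_mul])
    have h2 : chi n p ≠ 0 := fun h => hne (by simp only [hη]; rw [h]; simp)
    have h3 : p.2 ≤ 2 * n := by
      by_contra h
      push Not at h
      exact h2 (bt_zero ((le_div_iff₀ hn0).mpr h.le))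
    exact hp ⟨(hK.supp p h1).1, (hK.supp p h1).2, h3⟩
  have hid := energy_identity hu heig hηC hKc hKU hη0
  have hκU : ContDiffOn ℝ 1 (cc κ) UH := (contDiff_cc hK.smooth).contDiffOn
  have hχU : ContDiffOn ℝ 1 (cc (chi n)) UH := (contDiff_cc hχC).contDiffOn
  have hG1 : ContinuousOn (Gop u (cc κ)) UH := continuousOn_Gop hu hκU
  have hG2 : ContinuousOn (Gop u (cc (chi n))) UH := continuousOn_Gop hu hχU
  have hcχ : ContinuousOn (fun p => ((chi n p : ℝ) : ℂ)) UH :=
    (Complex.continuous_ofReal.comp hχC.continuous).continuousOn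
  have hcκ : ContinuousOn (fun p => ((κ p : ℝ) : ℂ)) UH :=
    (Complex.continuous_ofReal.comp hK.smooth.continuous).continuousOn
  -- Leibniz
  have hleib : ∀ p ∈ UH, Gop u (cc η) p
      = (((chi n p ^ 2 : ℝ)) : ℂ) * Gop u (cc κ) p
        + 2 * (κ p : ℂ) * (chi n p : ℂ) * Gop u (cc (chi n)) p := by
    intro p hp
    have d1 : DifferentiableAt ℝ (cc κ) p := differentiableAt_of hκU hp
    have d2 : DifferentiableAt ℝ (cc (chi n)) p := differentiableAt_of hχU hp
    have e0 : cc η = fun q => cc κ q * (cc (chi n) q * cc (chi n) q) := by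
      funext q
      simp only [cc, hη]
      push_cast
      ring
    have d3 : DifferentiableAt ℝ (fun q => cc (chi n) q * cc (chi n) q) p := d2.mul d2
    rw [e0, Gop_mul u d1 d3, Gop_mul u d2 d2]
    simp only [cc]
    push_cast
    ring
  -- the three integrals
  have hoffκ : ∀ p, p ∉ K → (((chi n p ^ 2 : ℝ)) : ℂ) * Gop u (cc κ) p = 0 := by
    intro p hp
    by_contra hne
    have h1 : Gop u (cc κ) p ≠ 0 := fun h => hne (by rw [h, mul_zero])
    have h2 : chi n p ≠ 0 := fun h => hne (by rw [h]; simp)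
    have h3 : p.2 ≤ 2 * n := by
      by_contra h
      push Not at h
      exact h2 (bt_zero ((le_div_iff₀ hn0).mpr h.le))
    have h4 : ‖p.1‖ ≤ C ∧ a ≤ p.2 := by
      by_contra h
      exact h1 (Gop_kap_off hK u h)
    exact hp ⟨h4.1, h4.2, h3⟩
  have hi1 : Integrable (fun p => (((chi n p ^ 2 : ℝ)) : ℂ) * Gop u (cc κ) p) hyp := by
    refine integrable_hyp hKc hKU ?_ hoffκ
    refine ContinuousOn.mul ?_ hG1
    exact (Complex.continuous_ofReal.comp (hχC.continuous.pow 2)).continuousOn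
  have hi2 : Integrable (fun p => 2 * (κ p : ℂ) * (chi n p : ℂ) * Gop u (cc (chi n)) p) hyp := by
    refine integrable_hyp hKc hKU (((continuousOn_const.mul hcκ).mul hcχ).mul hG2) ?_
    intro p hp
    have h1 := hη0 p hp
    simp only [hη] at h1
    rcases mul_eq_zero.mp h1 with h | h
    · rw [h]; simp
    · have : chi n p = 0 := by simpa using h
      rw [this]; simp
  have hBi : Integrable (fun p => η p * Bf u p) hyp :=
    integrable_hyp hKc hKU (hηC.continuous.continuousOn.mul (continuousOn_Bf hu)) fun p hp => by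
      rw [hη0 p hp, zero_mul]
  have hi3 : Integrable (fun p => (η p : ℂ) * (Bf u p : ℂ)) hyp := by
    have := hBi.ofReal (𝕜 := ℂ)
    refine this.congr (Eventually.of_forall fun p => ?_)
    push_cast
    rfl
  have hz : ∫ p, (((chi n p ^ 2 : ℝ)) : ℂ) * Gop u (cc κ) p ∂hyp = 0 := by
    refine unfold_zero hR hK hS (w := fun p => chi n p ^ 2) (ρ := 2 * n) (hχC.continuous.pow 2) ?_ ?_
    · intro p hp
      by_contra h
      push Not at h
      apply hp
      have : chi n p = 0 := bt_zero ((le_div_iff₀ hn0).mpr h.le)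
      rw [this]; norm_num
    · intro γ hγ p hp h1 h2
      rw [chi_inv hR ha hn hγ hp h1 h2]
  refine ⟨∫ p, 2 * (κ p : ℂ) * (chi n p : ℂ) * Gop u (cc (chi n)) p ∂hyp, ?_, ?_⟩
  · have hsplit : ∫ p, (Gop u (cc η) p + (η p : ℂ) * (Bf u p : ℂ)) ∂hyp
        = (∫ p, (((chi n p ^ 2 : ℝ)) : ℂ) * Gop u (cc κ) p ∂hyp)
          + (∫ p, 2 * (κ p : ℂ) * (chi n p : ℂ) * Gop u (cc (chi n)) p ∂hyp)
          + ∫ p, (η p : ℂ) * (Bf u p : ℂ) ∂hyp := by
      rw [integral_add3 hi1 hi2 hi3]
      refine integral_congr_ae ?_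
      filter_upwards [ae_hyp] with p hp
      rw [hleib p hp]
    have eB : ∫ p, (η p : ℂ) * (Bf u p : ℂ) ∂hyp = ((∫ p, η p * Bf u p ∂hyp : ℝ) : ℂ) := by
      rw [← integral_complex_ofReal]
      refine integral_congr_ae (Eventually.of_forall fun p => ?_)
      simp
    have eA : ∫ p, (η p : ℂ) * (Af u p : ℂ) ∂hyp = ((∫ p, η p * Af u p ∂hyp : ℝ) : ℂ) := by
      rw [← integral_complex_ofReal]
      refine integral_congr_ae (Eventually.of_forall fun p => ?_)
      simp
    rw [hsplit, hz, zero_add, eB, eA] at hid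
    rw [add_comm] at hid
    exact hid
  · have hindi : Integrable (fun p => Set.indicator {q : Pt | n ≤ q.2} (fun q => κ q * Af u q) p)
        hyp := hA.indicator (measurableSet_le measurable_const measurable_snd)
    calc ‖∫ p, 2 * (κ p : ℂ) * (chi n p : ℂ) * Gop u (cc (chi n)) p ∂hyp‖
        ≤ ∫ p, ‖2 * (κ p : ℂ) * (chi n p : ℂ) * Gop u (cc (chi n)) p‖ ∂hyp :=
          norm_integral_le_integral_norm _
      _ ≤ ∫ p, (ε * (η p * Bf u p) + ε⁻¹ * (D ^ 2 *
            Set.indicator {q : Pt | n ≤ q.2} (fun q => κ q * Af u q) p)) ∂hyp := by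
          refine integral_mono_ae hi2.norm
            ((hBi.const_mul ε).add ((hindi.const_mul (D ^ 2)).const_mul ε⁻¹)) ?_
          filter_upwards [ae_hyp] with p hp
          have hb := cutoff_bound u hD hn0 hε hp
          have hκ0 := hK.nonneg p
          have hχ0 : 0 ≤ chi n p := bt_nonneg _
          have hb' := mul_le_mul_of_nonneg_left hb hκ0
          have e1' : ‖2 * (κ p : ℂ) * (chi n p : ℂ) * Gop u (cc (chi n)) p‖
              = κ p * (2 * (chi n p * ‖Gop u (cc (chi n)) p‖)) := by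
            rw [norm_mul, norm_mul, norm_mul, Complex.norm_real, Complex.norm_real,
              Real.norm_eq_abs, Real.norm_eq_abs, abs_of_nonneg hκ0, abs_of_nonneg hχ0]
            simp only [Complex.norm_ofNat]
            ring
          have e2' : Set.indicator {q : Pt | n ≤ q.2} (fun q => κ q * Af u q) p
              = κ p * Set.indicator {q : Pt | n ≤ q.2} (Af u) p := by
            by_cases h : p ∈ {q : Pt | n ≤ q.2}
            · rw [Set.indicator_of_mem h, Set.indicator_of_mem h]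
            · rw [Set.indicator_of_notMem h, Set.indicator_of_notMem h, mul_zero]
          rw [e1', e2']
          refine le_trans hb' (le_of_eq ?_)
          simp only [hη]
          ring
      _ = _ := by
          rw [integral_add (hBi.const_mul ε) ((hindi.const_mul (D ^ 2)).const_mul ε⁻¹),
            integral_const_mul, integral_const_mul, integral_const_mul]

theorem aesm_real {f : Pt → ℝ} (hf : ContinuousOn f UH) : AEStronglyMeasurable f hyp :=
  (ofReal_aem hf).aestronglyMeasurable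

theorem chi_eventually (p : Pt) : ∀ᶠ k : ℕ in atTop, chi (k : ℝ) p = 1 := by
  obtain ⟨N, hN⟩ := exists_nat_ge (max p.2 1)
  filter_upwards [eventually_ge_atTop N] with k hk
  have h1 : (N : ℝ) ≤ k := by exact_mod_cast hk
  have h2 : p.2 ≤ k := le_trans (le_trans (le_max_left _ _) hN) h1
  have h3 : (0 : ℝ) < k := lt_of_lt_of_le one_pos (le_trans (le_trans (le_max_right _ _) hN) h1)
  exact bt_one ((div_le_one h3).mpr h2)

theorem energy {R : Subring ℂ} (hR : NiceRing R) {κ : Pt → ℝ} {C a : ℝ} (hK : Kap R κ C a)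
    {ι : Type} [Fintype ι] {u : ι → Pt → ℂ} (hS : Sys R ι u) (lam : ℂ)
    (heig : ∀ i, WeakEig lam (u i))
    (hfin : ∫⁻ p, ENNReal.ofReal (κ p) * ENNReal.ofReal (∑ i, ‖u i p‖ ^ 2) ∂hyp ≠ ⊤) :
    (∫⁻ p, ENNReal.ofReal (κ p) * ENNReal.ofReal (∑ i, gsq (u i) p) ∂hyp
      ≤ ENNReal.ofReal lam.re *
        ∫⁻ p, ENNReal.ofReal (κ p) * ENNReal.ofReal (∑ i, ‖u i p‖ ^ 2) ∂hyp) ∧
    (lam.im = 0 ∨
      ∫⁻ p, ENNReal.ofReal (κ p) * ENNReal.ofReal (∑ i, ‖u i p‖ ^ 2) ∂hyp = 0) := by
  have ha := hK.pos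
  have hu := smooth1 hS
  have hκ0 := hK.nonneg
  have hκc : ContinuousOn κ UH := hK.smooth.continuous.continuousOn
  have hAc := continuousOn_Af hu
  have hBc := continuousOn_Bf hu
  have hχc : ∀ n : ℝ, ContinuousOn (chi n) UH := fun n => (contDiff_chi n).continuous.continuousOn
  have hχ0 : ∀ n p, 0 ≤ chi n p := fun n p => bt_nonneg _
  have hχ1 : ∀ n p, chi n p ≤ 1 := fun n p => bt_le_one _
  obtain ⟨D, -, hD⟩ := exists_D
  -- conversion of the lower integrals
  have eA : ∀ p, ENNReal.ofReal (κ p) * ENNReal.ofReal (∑ i, ‖u i p‖ ^ 2)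
      = ENNReal.ofReal (κ p * Af u p) := fun p => (ENNReal.ofReal_mul (hκ0 p)).symm
  have eB : ∀ p, ENNReal.ofReal (κ p) * ENNReal.ofReal (∑ i, gsq (u i) p)
      = ENNReal.ofReal (κ p * Bf u p) := fun p => (ENNReal.ofReal_mul (hκ0 p)).symm
  simp only [eA] at hfin
  simp only [eA, eB]
  have hκA0 : ∀ p, 0 ≤ κ p * Af u p := fun p => mul_nonneg (hκ0 p) (Af_nonneg u p)
  have hA : Integrable (fun p => κ p * Af u p) hyp :=
    (lintegral_ofReal_ne_top_iff_integrable (aesm_real (hκc.mul hAc))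
      (Eventually.of_forall hκA0)).mp hfin
  set S : ℝ := ∫ p, κ p * Af u p ∂hyp with hSdef
  have hS0 : 0 ≤ S := integral_nonneg hκA0
  have hSA : ∫⁻ p, ENNReal.ofReal (κ p * Af u p) ∂hyp = ENNReal.ofReal S :=
    (ofReal_integral_eq_lintegral_ofReal hA (Eventually.of_forall hκA0)).symm
  rw [hSA]
  -- sequences
  set aa : ℕ → ℝ := fun k => ∫ p, κ p * chi k p ^ 2 * Af u p ∂hyp with haa
  set bb : ℕ → ℝ := fun k => ∫ p, κ p * chi k p ^ 2 * Bf u p ∂hyp with hbb
  set tt : ℕ → ℝ := fun k =>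
    ∫ p, Set.indicator {q : Pt | (k : ℝ) ≤ q.2} (fun q => κ q * Af u q) p ∂hyp with htt
  have hchi2 : ∀ (n : ℝ) p, chi n p ^ 2 ≤ 1 := fun n p => by
    have h1 := hχ0 n p
    have h2 := hχ1 n p
    nlinarith
  have hta : Tendsto aa atTop (𝓝 S) := by
    refine tendsto_integral_of_dominated_convergence (fun p => κ p * Af u p) ?_ hA ?_ ?_
    · intro k
      exact aesm_real ((hκc.mul ((hχc _).pow 2)).mul hAc)
    · intro k
      refine Eventually.of_forall fun p => ?_
      rw [Real.norm_eq_abs, abs_of_nonneg (mul_nonneg (mul_nonneg (hκ0 p) (by positivity))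
        (Af_nonneg u p))]
      have h1 : κ p * chi k p ^ 2 ≤ κ p * 1 := mul_le_mul_of_nonneg_left (hchi2 _ p) (hκ0 p)
      have h2 := mul_le_mul_of_nonneg_right h1 (Af_nonneg u p)
      rwa [mul_one] at h2
    · refine Eventually.of_forall fun p => ?_
      refine tendsto_const_nhds.congr' ?_
      filter_upwards [chi_eventually p] with k hk
      rw [hk]; ring
  have htt0 : Tendsto tt atTop (𝓝 0) := by
    have hms : ∀ k : ℕ, MeasurableSet {q : Pt | (k : ℝ) ≤ q.2} := fun k =>
      measurableSet_le measurable_const measurable_snd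
    have h0 : ∫ p, (0 : ℝ) ∂hyp = 0 := integral_zero Pt ℝ
    rw [← h0]
    refine tendsto_integral_of_dominated_convergence (fun p => κ p * Af u p) ?_ hA ?_ ?_
    · intro k
      exact (hA.indicator (hms k)).aestronglyMeasurable
    · intro k
      refine Eventually.of_forall fun p => ?_
      by_cases h : p ∈ {q : Pt | (k : ℝ) ≤ q.2}
      · rw [Set.indicator_of_mem h, Real.norm_eq_abs, abs_of_nonneg (hκA0 p)]
      · rw [Set.indicator_of_notMem h, norm_zero]
        exact hκA0 p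
    · refine Eventually.of_forall fun p => ?_
      refine tendsto_const_nhds.congr' ?_
      obtain ⟨N, hN⟩ := exists_nat_gt p.2
      filter_upwards [eventually_ge_atTop N] with k hk
      have h1 : (N : ℝ) ≤ k := by exact_mod_cast hk
      rw [Set.indicator_of_notMem]
      intro h
      have : (k : ℝ) ≤ p.2 := h
      linarith
  have haa0 : ∀ k, 0 ≤ aa k := fun k => integral_nonneg fun p =>
    mul_nonneg (mul_nonneg (hκ0 p) (by positivity)) (Af_nonneg u p)
  have hbb0 : ∀ k, 0 ≤ bb k := fun k => integral_nonneg fun p =>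
    mul_nonneg (mul_nonneg (hκ0 p) (by positivity)) (Bf_nonneg u p)
  have hev : ∀ᶠ k : ℕ in atTop, 1 / a ≤ (k : ℝ) := by
    obtain ⟨N, hN⟩ := exists_nat_ge (1 / a)
    filter_upwards [eventually_ge_atTop N] with k hk
    exact le_trans hN (by exact_mod_cast hk)
  -- consequences of the basic inequality
  have hre : ∀ ε : ℝ, 0 < ε → ∀ k : ℕ, 1 / a ≤ (k : ℝ) →
      (1 - ε) * bb k ≤ lam.re * aa k + ε⁻¹ * (D ^ 2 * tt k) ∧
      |lam.im| * aa k ≤ ε * bb k + ε⁻¹ * (D ^ 2 * tt k) := by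
    intro ε hε k hk
    obtain ⟨c, hc1, hc2⟩ := basic hR hK hS heig hD hA hk hε
    have r1 : bb k + c.re = lam.re * aa k := by
      have := congrArg Complex.re hc1
      simpa using this
    have r2 : c.im = lam.im * aa k := by
      have := congrArg Complex.im hc1
      simpa using this
    have hcre : |c.re| ≤ ‖c‖ := Complex.abs_re_le_norm c
    have hcim : |c.im| ≤ ‖c‖ := Complex.abs_im_le_norm c
    constructor
    · have h1 : -c.re ≤ |c.re| := neg_le_abs _
      have h2 : -c.re ≤ ε * bb k + ε⁻¹ * (D ^ 2 * tt k) := le_trans h1 (le_trans hcre hc2)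
      linarith
    · rw [r2, abs_mul, abs_of_nonneg (haa0 k)] at hcim
      exact le_trans hcim hc2
  -- integrability of the cut-off energies
  have hBi : ∀ k : ℕ, 1 / a ≤ (k : ℝ) →
      Integrable (fun p => κ p * chi k p ^ 2 * Bf u p) hyp := by
    intro k hk
    have hn0 : (0 : ℝ) < k := lt_of_lt_of_le (by positivity) hk
    refine integrable_hyp (isCompact_box C a (2 * k)) (box_subset ha)
      ((hκc.mul ((hχc _).pow 2)).mul hBc) ?_
    intro p hp
    by_contra hne
    have h1 : κ p ≠ 0 := fun h => hne (by rw [h, zero_mul, zero_mul])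
    have h2 : chi k p ≠ 0 := fun h => hne (by rw [h]; simp)
    have h3 : p.2 ≤ 2 * k := by
      by_contra h
      push Not at h
      exact h2 (bt_zero ((le_div_iff₀ hn0).mpr h.le))
    exact hp ⟨(hK.supp p h1).1, (hK.supp p h1).2, h3⟩
  have hfatou : ∀ M : ℝ, ∀ Ms : ℕ → ℝ, Tendsto Ms atTop (𝓝 M) →
      (∀ᶠ k : ℕ in atTop, bb k ≤ Ms k) →
      ∫⁻ p, ENNReal.ofReal (κ p * Bf u p) ∂hyp ≤ ENNReal.ofReal M := by
    intro M Ms hMs hle
    have h1 : ∫⁻ p, ENNReal.ofReal (κ p * Bf u p) ∂hyp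
        = ∫⁻ p, liminf (fun k : ℕ => ENNReal.ofReal (κ p * chi k p ^ 2 * Bf u p)) atTop ∂hyp := by
      refine lintegral_congr fun p => ?_
      symm
      refine Tendsto.liminf_eq (tendsto_const_nhds.congr' ?_)
      filter_upwards [chi_eventually p] with k hk
      rw [hk]
      congr 1
      ring
    have h2 : ∫⁻ p, liminf (fun k : ℕ => ENNReal.ofReal (κ p * chi k p ^ 2 * Bf u p)) atTop ∂hyp
        ≤ liminf (fun k : ℕ => ∫⁻ p, ENNReal.ofReal (κ p * chi k p ^ 2 * Bf u p) ∂hyp) atTop :=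
      lintegral_liminf_le' fun k => (ofReal_aem ((hκc.mul ((hχc _).pow 2)).mul hBc)).ennreal_ofReal
    have h3 : liminf (fun k : ℕ => ∫⁻ p, ENNReal.ofReal (κ p * chi k p ^ 2 * Bf u p) ∂hyp) atTop
        ≤ liminf (fun k : ℕ => ENNReal.ofReal (Ms k)) atTop := by
      refine liminf_le_liminf ?_
      filter_upwards [hle, hev] with k hk hk2
      rw [← ofReal_integral_eq_lintegral_ofReal (hBi k hk2) (Eventually.of_forall fun p =>
        mul_nonneg (mul_nonneg (hκ0 p) (by positivity)) (Bf_nonneg u p))]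
      exact ENNReal.ofReal_le_ofReal hk
    have h4 : liminf (fun k : ℕ => ENNReal.ofReal (Ms k)) atTop = ENNReal.ofReal M :=
      ((ENNReal.continuous_ofReal.tendsto M).comp hMs).liminf_eq
    rw [h1]
    exact le_trans h2 (le_trans h3 h4.le)
  have hMk : ∀ ε : ℝ, Tendsto (fun k => lam.re * aa k + ε⁻¹ * (D ^ 2 * tt k)) atTop
      (𝓝 (lam.re * S)) := by
    intro ε
    have := (hta.const_mul lam.re).add ((htt0.const_mul (D ^ 2)).const_mul ε⁻¹)
    simpa using this
  constructor
  · have hall : ∀ ε : ℝ, 0 < ε → ε < 1 → ∫⁻ p, ENNReal.ofReal (κ p * Bf u p) ∂hyp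
        ≤ ENNReal.ofReal ((1 - ε)⁻¹ * (lam.re * S)) := by
      intro ε hε hε1
      refine hfatou _ (fun k => (1 - ε)⁻¹ * (lam.re * aa k + ε⁻¹ * (D ^ 2 * tt k)))
        ((hMk ε).const_mul _) ?_
      filter_upwards [hev] with k hk
      have h1 := (hre ε hε k hk).1
      have h2 : 0 < 1 - ε := by linarith
      rw [← div_eq_inv_mul, le_div_iff₀ h2]
      linarith
    have hlim : Tendsto (fun ε : ℝ => ENNReal.ofReal ((1 - ε)⁻¹ * (lam.re * S))) (𝓝[>] 0)
        (𝓝 (ENNReal.ofReal (lam.re * S))) := by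
      have h1 : Tendsto (fun ε : ℝ => (1 - ε)⁻¹ * (lam.re * S)) (𝓝 0)
          (𝓝 ((1 - 0)⁻¹ * (lam.re * S))) := by
        refine Tendsto.mul_const _ (Tendsto.inv₀ (tendsto_const_nhds.sub tendsto_id) ?_)
        norm_num
      have h2 : (1 - 0 : ℝ)⁻¹ * (lam.re * S) = lam.re * S := by norm_num
      rw [h2] at h1
      exact (ENNReal.continuous_ofReal.tendsto _).comp (h1.mono_left nhdsWithin_le_nhds)
    have hfinal : ∫⁻ p, ENNReal.ofReal (κ p * Bf u p) ∂hyp ≤ ENNReal.ofReal (lam.re * S) := by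
      refine ge_of_tendsto hlim ?_
      filter_upwards [Ioo_mem_nhdsGT (zero_lt_one' ℝ)] with ε hε
      exact hall ε hε.1 hε.2
    rwa [ENNReal.ofReal_mul' hS0] at hfinal
  · have hall : ∀ ε : ℝ, 0 < ε → |lam.im| * S ≤ ε * (2 * (lam.re * S)) := by
      intro ε hε
      have h1 : ∀ᶠ k : ℕ in atTop, |lam.im| * aa k ≤
          ε * (2 * (lam.re * aa k + (1 / 2 : ℝ)⁻¹ * (D ^ 2 * tt k))) + ε⁻¹ * (D ^ 2 * tt k) := by
        filter_upwards [hev] with k hk
        have k1 := (hre (1 / 2) (by norm_num) k hk).1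
        have k2 := (hre ε hε k hk).2
        have k3 : bb k ≤ 2 * (lam.re * aa k + (1 / 2 : ℝ)⁻¹ * (D ^ 2 * tt k)) := by linarith
        have k4 := mul_le_mul_of_nonneg_left k3 hε.le
        linarith
      have h2 : Tendsto (fun k => ε * (2 * (lam.re * aa k + (1 / 2 : ℝ)⁻¹ * (D ^ 2 * tt k)))
          + ε⁻¹ * (D ^ 2 * tt k)) atTop (𝓝 (ε * (2 * (lam.re * S)))) := by
        have := (((hMk (1 / 2)).const_mul 2).const_mul ε).add
          ((htt0.const_mul (D ^ 2)).const_mul ε⁻¹)
        simpa using this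
      exact le_of_tendsto_of_tendsto (hta.const_mul _) h2 h1
    have hz : |lam.im| * S ≤ 0 := by
      have hlim : Tendsto (fun ε : ℝ => ε * (2 * (lam.re * S))) (𝓝[>] 0) (𝓝 0) := by
        have h1 : Tendsto (fun ε : ℝ => ε * (2 * (lam.re * S))) (𝓝 0)
            (𝓝 (0 * (2 * (lam.re * S)))) := tendsto_id.mul_const _
        rw [zero_mul] at h1
        exact h1.mono_left nhdsWithin_le_nhds
      refine ge_of_tendsto hlim ?_
      filter_upwards [self_mem_nhdsWithin] with ε hε
      exact hall ε hε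
    have hz2 : |lam.im| * S = 0 := le_antisymm hz (mul_nonneg (abs_nonneg _) hS0)
    rcases mul_eq_zero.mp hz2 with h | h
    · left; exact abs_eq_zero.mp h
    · right; rw [h, ENNReal.ofReal_zero]

end Pool.Agent.Helper9.Ram
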