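import Pool.Agent.Helper9.Ram.Green
import Pool.Agent.Helper64.RamU1
import Pool.Agent.Helper50.Ram.RamU2b

set_option autoImplicit false

namespace Pool.Agent.Helper9.Ram

open Pool.Agent.Helper10.Ram Pool.Agent.Helper68.Ram
open Pool.Agent.Helper50.Ram (den_pos act_mem act_mul act_one mem_Gam)
open Pool.Agent.Helper64.Ram (local_finite)
open Complex MeasureTheory Topology

/-- complex version of a real function -/
noncomputable def cc (η : Pt → ℝ) (p : Pt) : ℂ := (η p : ℂ)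

/-- the first order operator `η ↦ ∑ conj u_i <grad u_i, grad η>` -/
noncomputable def Gop {ι : Type} [Fintype ι] (u : ι → Pt → ℂ) (v : Pt → ℂ) (p : Pt) : ℂ :=
  ∑ i, (starRingEnd ℂ) (u i p) * gdot (u i) v p

theorem contDiffOn_cc {n : WithTop ℕ∞} {η : Pt → ℝ} {s : Set Pt} (h : ContDiffOn ℝ n η s) :
    ContDiffOn ℝ n (cc η) s :=
  Complex.ofRealCLM.contDiff.comp_contDiffOn h

theorem contDiff_cc {n : WithTop ℕ∞} {η : Pt → ℝ} (h : ContDiff ℝ n η) : ContDiff ℝ n (cc η) :=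
  Complex.ofRealCLM.contDiff.comp h

theorem contDiffOn_conj {n : WithTop ℕ∞} {f : Pt → ℂ} {s : Set Pt} (h : ContDiffOn ℝ n f s) :
    ContDiffOn ℝ n (fun p => (starRingEnd ℂ) (f p)) s :=
  Complex.conjCLE.contDiff.comp_contDiffOn h

theorem pd_mul (e : Pt) {f h : Pt → ℂ} {p : Pt} (hf : DifferentiableAt ℝ f p)
    (hh : DifferentiableAt ℝ h p) :
    pd e (fun q => f q * h q) p = f p * pd e h p + h p * pd e f p := by
  unfold pd
  have h1 : fderiv ℝ (fun q => f q * h q) p = _ := (hf.hasFDerivAt.mul hh.hasFDerivAt).fderiv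
  rw [h1]
  simp [smul_eq_mul]

theorem pd_conj (e : Pt) {f : Pt → ℂ} {p : Pt} (hf : DifferentiableAt ℝ f p) :
    pd e (fun q => (starRingEnd ℂ) (f q)) p = (starRingEnd ℂ) (pd e f p) := by
  unfold pd
  have h := (Complex.conjCLE.toContinuousLinearMap.hasFDerivAt (x := f p)).comp p hf.hasFDerivAt
  have h2 : fderiv ℝ (fun q => (starRingEnd ℂ) (f q)) p = _ := h.fderiv
  rw [h2]
  rfl

theorem gdot_mul {u f h : Pt → ℂ} {p : Pt} (hf : DifferentiableAt ℝ f p)
    (hh : DifferentiableAt ℝ h p) :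
    gdot u (fun q => f q * h q) p = f p * gdot u h p + h p * gdot u f p := by
  unfold gdot
  rw [pd_mul _ hf hh, pd_mul _ hf hh, pd_mul _ hf hh]
  ring

theorem gdot_conj_self {u : Pt → ℂ} {p : Pt} (hu : DifferentiableAt ℝ u p) :
    gdot u (fun q => (starRingEnd ℂ) (u q)) p = (gsq u p : ℂ) := by
  unfold gdot gsq
  rw [pd_conj _ hu, pd_conj _ hu, pd_conj _ hu]
  simp only [Complex.mul_conj, Complex.normSq_eq_norm_sq]
  push_cast
  ring

theorem smooth1 {R : Subring ℂ} {ι : Type} {u : ι → Pt → ℂ} (hS : Sys R ι u) (i : ι) :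
    ContDiffOn ℝ 1 (u i) UH := (hS.smooth i).of_le (by norm_num)

theorem continuousOn_Gop {ι : Type} [Fintype ι] {u : ι → Pt → ℂ}
    (hu : ∀ i, ContDiffOn ℝ 1 (u i) UH) {v : Pt → ℂ} (hv : ContDiffOn ℝ 1 v UH) :
    ContinuousOn (Gop u v) UH := by
  unfold Gop
  refine continuousOn_finsetSum _ fun i _ => ?_
  exact (contDiffOn_conj (hu i)).continuousOn.mul (continuousOn_gdot (hu i) hv)

theorem Gop_congr {ι : Type} [Fintype ι] (u : ι → Pt → ℂ) {v w : Pt → ℂ} {p : Pt}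
    (h : v =ᶠ[𝓝 p] w) : Gop u v p = Gop u w p := by
  unfold Gop
  refine Finset.sum_congr rfl fun i _ => ?_
  rw [gdot_congr (Filter.EventuallyEq.refl _ _) h]

theorem Gop_mul {ι : Type} [Fintype ι] (u : ι → Pt → ℂ) {f h : Pt → ℂ} {p : Pt}
    (hf : DifferentiableAt ℝ f p) (hh : DifferentiableAt ℝ h p) :
    Gop u (fun q => f q * h q) p = f p * Gop u h p + h p * Gop u f p := by
  unfold Gop
  rw [Finset.mul_sum, Finset.mul_sum, ← Finset.sum_add_distrib]
  refine Finset.sum_congr rfl fun i _ => ?_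
  rw [gdot_mul hf hh]
  ring

theorem Gop_off {ι : Type} [Fintype ι] (u : ι → Pt → ℂ) {v : Pt → ℂ} {p : Pt}
    (h : p ∉ tsupport v) : Gop u v p = 0 := by
  unfold Gop
  refine Finset.sum_eq_zero fun i _ => ?_
  rw [gdot_zero_off h, mul_zero]

/-- invariance of the operator -/
theorem Gop_act {R : Subring ℂ} {ι : Type} [Fintype ι] {u : ι → Pt → ℂ} (hS : Sys R ι u)
    {γ : SL2C} (hγ : γ ∈ Gam R) {v : Pt → ℂ} {p : Pt} (hp : p ∈ UH)
    (hv : DifferentiableAt ℝ v (act γ p)) :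
    Gop u v (act γ p) = Gop u (fun q => v (act γ q)) p := by
  obtain ⟨σ, hσ⟩ := hS.perm γ hγ
  unfold Gop
  rw [← Equiv.sum_comp σ (fun i => (starRingEnd ℂ) (u i p) * gdot (u i) (fun q => v (act γ q)) p)]
  refine Finset.sum_congr rfl fun i _ => ?_
  rw [← gdot_comp_act γ hp (differentiableAt_of (smooth1 hS i) (act_mem γ hp)) hv, hσ i p hp]
  congr 1
  refine gdot_congr ?_ (Filter.EventuallyEq.refl _ _)
  filter_upwards [isOpen_UH.mem_nhds hp] with q hq
  exact hσ i q hq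

/-- finiteness of the set of `γ` moving a compact set into the support of `κ` -/
theorem finite_of_compact {R : Subring ℂ} (hR : NiceRing R) {K : Set Pt} (hK : IsCompact K)
    (hKU : K ⊆ UH) (C a : ℝ) (ha : 0 < a) :
    {γ : Gam R | ∃ q ∈ K, ‖(act γ q).1‖ ≤ C ∧ a ≤ (act γ q).2}.Finite := by
  refine hK.induction_on
    (p := fun s => {γ : Gam R | ∃ q ∈ s, ‖(act γ q).1‖ ≤ C ∧ a ≤ (act γ q).2}.Finite) ?_ ?_ ?_ ?_
  · simp
  · intro s t hst ht
    exact ht.subset fun γ ⟨q, hq, h⟩ => ⟨q, hst hq, h⟩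
  · intro s t hs ht
    refine (hs.union ht).subset ?_
    rintro γ ⟨q, hq | hq, h⟩
    · exact Or.inl ⟨q, hq, h⟩
    · exact Or.inr ⟨q, hq, h⟩
  · intro p hp
    obtain ⟨U, hU, -, hfin⟩ := local_finite hR (hKU hp) C a ha
    exact ⟨U, mem_nhdsWithin_of_mem_nhds hU, hfin⟩

/-- a closed box in the upper half-space -/
def box (C a ρ : ℝ) : Set Pt := {p | ‖p.1‖ ≤ C ∧ a ≤ p.2 ∧ p.2 ≤ ρ}

theorem box_eq (C a ρ : ℝ) : box C a ρ = Metric.closedBall (0 : ℂ) C ×ˢ Set.Icc a ρ := by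
  ext p
  simp [box, Set.mem_prod]

theorem isCompact_box (C a ρ : ℝ) : IsCompact (box C a ρ) := by
  rw [box_eq]
  exact (isCompact_closedBall _ _).prod isCompact_Icc

theorem box_subset {C a ρ : ℝ} (ha : 0 < a) : box C a ρ ⊆ UH := fun _ hp =>
  lt_of_lt_of_le ha hp.2.1

theorem box_nhds {C a ρ : ℝ} (ha : 0 < a) {p : Pt} (hp : p ∈ box C a ρ) :
    box (C + 1) (a / 2) (ρ + 1) ∈ 𝓝 p := by
  have h1 : {q : Pt | ‖q.1‖ < C + 1} ∩ ({q : Pt | a / 2 < q.2} ∩ {q : Pt | q.2 < ρ + 1}) ∈ 𝓝 p := by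
    refine IsOpen.mem_nhds ?_ ⟨?_, ?_, ?_⟩
    · exact (isOpen_lt (by fun_prop) continuous_const).inter
        ((isOpen_lt continuous_const continuous_snd).inter
          (isOpen_lt continuous_snd continuous_const))
    · have := hp.1
      change ‖p.1‖ < C + 1
      linarith
    · have := hp.2.1
      change a / 2 < p.2
      linarith
    · have := hp.2.2
      change p.2 < ρ + 1
      linarith
  filter_upwards [h1] with q hq
  exact ⟨le_of_lt hq.1, le_of_lt hq.2.1, le_of_lt hq.2.2⟩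

end Pool.Agent.Helper9.Ram
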