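import Pool.Agent.Helper9.Ram.Energy2

set_option autoImplicit false

namespace Pool.Agent.Helper9.Ram

open Pool.Agent.Helper10.Ram Pool.Agent.Helper68.Ram
open Pool.Agent.Helper50.Ram (den_pos act_mem act_mul act_one mem_Gam)
open Complex MeasureTheory Topology

/-- sum of squares -/
noncomputable def Af {ι : Type} [Fintype ι] (u : ι → Pt → ℂ) (p : Pt) : ℝ := ∑ i, ‖u i p‖ ^ 2
/-- sum of squared gradients -/
noncomputable def Bf {ι : Type} [Fintype ι] (u : ι → Pt → ℂ) (p : Pt) : ℝ := ∑ i, gsq (u i) p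

theorem Af_nonneg {ι : Type} [Fintype ι] (u : ι → Pt → ℂ) (p : Pt) : 0 ≤ Af u p :=
  Finset.sum_nonneg fun _ _ => by positivity

theorem gsq_nonneg (f : Pt → ℂ) (p : Pt) : 0 ≤ gsq f p := by unfold gsq; positivity

theorem Bf_nonneg {ι : Type} [Fintype ι] (u : ι → Pt → ℂ) (p : Pt) : 0 ≤ Bf u p :=
  Finset.sum_nonneg fun _ _ => gsq_nonneg _ _

theorem continuousOn_Af {ι : Type} [Fintype ι] {u : ι → Pt → ℂ}
    (hu : ∀ i, ContDiffOn ℝ 1 (u i) UH) : ContinuousOn (Af u) UH := by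
  unfold Af
  exact continuousOn_finsetSum _ fun i _ => ((hu i).continuousOn.norm).pow 2

theorem continuousOn_gsq {u : Pt → ℂ} (hu : ContDiffOn ℝ 1 u UH) : ContinuousOn (gsq u) UH := by
  have h : ContinuousOn (fun p : Pt => p.2 ^ 2) UH := by fun_prop
  exact h.mul ((((continuousOn_pd e1 hu).norm.pow 2).add ((continuousOn_pd e2 hu).norm.pow 2)).add
    ((continuousOn_pd e3 hu).norm.pow 2))

theorem continuousOn_Bf {ι : Type} [Fintype ι] {u : ι → Pt → ℂ}
    (hu : ∀ i, ContDiffOn ℝ 1 (u i) UH) : ContinuousOn (Bf u) UH := by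
  unfold Bf
  exact continuousOn_finsetSum _ fun i _ => continuousOn_gsq (hu i)

/-- the localised energy identity -/
theorem energy_identity {ι : Type} [Fintype ι] {u : ι → Pt → ℂ}
    (hu : ∀ i, ContDiffOn ℝ 1 (u i) UH) {lam : ℂ} (heig : ∀ i, WeakEig lam (u i))
    {η : Pt → ℝ} (hη : ContDiff ℝ 1 η) {K : Set Pt} (hK : IsCompact K) (hKU : K ⊆ UH)
    (h0 : ∀ p, p ∉ K → η p = 0) :
    ∫ p, (Gop u (cc η) p + (η p : ℂ) * (Bf u p : ℂ)) ∂hyp
      = lam * ∫ p, (η p : ℂ) * (Af u p : ℂ) ∂hyp := by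
  have hts : tsupport η ⊆ K := closure_minimal (fun p hp => by
    by_contra h; exact hp (h0 p h)) hK.isClosed
  set φ : ι → Pt → ℂ := fun i p => cc η p * (starRingEnd ℂ) (u i p) with hφ
  have hcη : ContDiff ℝ 1 (cc η) := contDiff_cc hη
  have hφU : ∀ i, ContDiffOn ℝ 1 (φ i) UH := fun i =>
    hcη.contDiffOn.mul (contDiffOn_conj (hu i))
  have hφ0 : ∀ i, ∀ p, p ∉ K → φ i p = 0 := fun i p hp => by
    simp only [hφ, cc, h0 p hp]; simp
  have hφC : ∀ i, ContDiff ℝ 1 (φ i) := fun i => contDiff_of_UH hK.isClosed hKU (hφU i) (hφ0 i)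
  have hφc : ∀ i, HasCompactSupport (φ i) := fun i => HasCompactSupport.intro hK (hφ0 i)
  have hφs : ∀ i, tsupport (φ i) ⊆ K := fun i => closure_minimal (fun p hp => by
    by_contra h; exact hp (hφ0 i p h)) hK.isClosed
  have hw := fun i => heig i (φ i) (hφC i) (hφc i) ((hφs i).trans hKU)
  have hgd : ∀ i, ∀ p ∈ UH, gdot (u i) (φ i) p
      = (η p : ℂ) * (gsq (u i) p : ℂ) + (starRingEnd ℂ) (u i p) * gdot (u i) (cc η) p := by
    intro i p hp
    have h1 : DifferentiableAt ℝ (cc η) p := hcη.differentiable one_ne_zero p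
    have h2 : DifferentiableAt ℝ (fun q => (starRingEnd ℂ) (u i q)) p :=
      differentiableAt_of (contDiffOn_conj (hu i)) hp
    have h3 := gdot_mul (u := u i) h1 h2
    rw [gdot_conj_self (differentiableAt_of (hu i) hp)] at h3
    exact h3
  have hi1 : ∀ i, Integrable (fun p => gdot (u i) (φ i) p) hyp := fun i =>
    integrable_hyp hK hKU (continuousOn_gdot (hu i) (hφU i)) fun p hp =>
      gdot_zero_off fun h => hp (hφs i h)
  have hi2 : ∀ i, Integrable (fun p => u i p * φ i p) hyp := fun i =>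
    integrable_hyp hK hKU ((hu i).continuousOn.mul (hφU i).continuousOn) fun p hp => by
      rw [hφ0 i p hp, mul_zero]
  have e1' : ∫ p, (Gop u (cc η) p + (η p : ℂ) * (Bf u p : ℂ)) ∂hyp
      = ∑ i, ∫ p, gdot (u i) (φ i) p ∂hyp := by
    rw [← integral_finsetSum _ fun i _ => hi1 i]
    refine integral_congr_ae ?_
    filter_upwards [ae_hyp] with p hp
    unfold Gop Bf
    push_cast
    rw [Finset.mul_sum, ← Finset.sum_add_distrib]
    refine Finset.sum_congr rfl fun i _ => ?_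
    rw [hgd i p hp]
    ring
  have e2' : ∫ p, (η p : ℂ) * (Af u p : ℂ) ∂hyp = ∑ i, ∫ p, u i p * φ i p ∂hyp := by
    rw [← integral_finsetSum _ fun i _ => hi2 i]
    refine integral_congr_ae ?_
    filter_upwards [ae_hyp] with p hp
    unfold Af
    push_cast
    rw [Finset.mul_sum]
    refine Finset.sum_congr rfl fun i _ => ?_
    simp only [hφ, cc]
    rw [← Complex.mul_conj']
    ring
  rw [e1', e2', Finset.mul_sum]
  exact Finset.sum_congr rfl fun i _ => hw i

/-! ## the cut-off -/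

/-- smooth function equal to `1` on `(-∞,1]` and `0` on `[2,∞)` -/
noncomputable def bt (t : ℝ) : ℝ := Real.smoothTransition (2 - t)

theorem bt_one {t : ℝ} (ht : t ≤ 1) : bt t = 1 :=
  Real.smoothTransition.one_of_one_le (by linarith)

theorem bt_zero {t : ℝ} (ht : 2 ≤ t) : bt t = 0 :=
  Real.smoothTransition.zero_of_nonpos (by linarith)

theorem bt_nonneg (t : ℝ) : 0 ≤ bt t := Real.smoothTransition.nonneg _
theorem bt_le_one (t : ℝ) : bt t ≤ 1 := Real.smoothTransition.le_one _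

theorem contDiff_bt : ContDiff ℝ 1 bt :=
  Real.smoothTransition.contDiff.comp (contDiff_const.sub contDiff_id)

theorem deriv_bt_low {t : ℝ} (ht : t < 1) : deriv bt t = 0 := by
  have h : bt =ᶠ[𝓝 t] fun _ => 1 := by
    filter_upwards [Iio_mem_nhds ht] with s hs
    exact bt_one (le_of_lt hs)
  rw [h.deriv_eq]; simp

theorem deriv_bt_high {t : ℝ} (ht : 2 < t) : deriv bt t = 0 := by
  have h : bt =ᶠ[𝓝 t] fun _ => 0 := by
    filter_upwards [Ioi_mem_nhds ht] with s hs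
    exact bt_zero (le_of_lt hs)
  rw [h.deriv_eq]; simp

theorem exists_D : ∃ D : ℝ, 0 ≤ D ∧ ∀ t, |t * deriv bt t| ≤ D := by
  have hc : Continuous fun t => t * deriv bt t :=
    continuous_id.mul (contDiff_bt.continuous_deriv le_rfl)
  have hs : HasCompactSupport fun t => t * deriv bt t := by
    refine HasCompactSupport.intro (isCompact_Icc (a := (1 : ℝ)) (b := 2)) fun t ht => ?_
    rw [Set.mem_Icc, not_and_or, not_le, not_le] at ht
    rcases ht with h | h
    · rw [deriv_bt_low h, mul_zero]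
    · rw [deriv_bt_high h, mul_zero]
  obtain ⟨D, hD⟩ := hs.exists_bound_of_continuous hc
  exact ⟨D, le_trans (norm_nonneg _) (hD 0), hD⟩

/-- the cut-off at height `n` -/
noncomputable def chi (n : ℝ) (p : Pt) : ℝ := bt (p.2 / n)

theorem contDiff_chi (n : ℝ) : ContDiff ℝ 1 (chi n) :=
  contDiff_bt.comp (contDiff_snd.div_const n)

theorem pd_chi (n : ℝ) (e p : Pt) :
    pd e (cc (chi n)) p = ((deriv bt (p.2 / n) * (e.2 / n) : ℝ) : ℂ) := by
  have h1 : HasDerivAt bt (deriv bt (p.2 / n)) (p.2 / n) :=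
    (contDiff_bt.differentiable one_ne_zero _).hasDerivAt
  have h2 : HasFDerivAt (fun q : Pt => q.2 / n) ((n⁻¹ : ℝ) • ContinuousLinearMap.snd ℝ ℂ ℝ) p := by
    have := (hasFDerivAt_snd (𝕜 := ℝ) (p := p) : HasFDerivAt (fun q : Pt => q.2) _ p).const_smul
      (n⁻¹)
    refine this.congr_of_eventuallyEq (Filter.Eventually.of_forall fun q => ?_)
    simp [div_eq_inv_mul]
  have h3 := h1.comp_hasFDerivAt p h2
  have h4 := (Complex.ofRealCLM.hasFDerivAt (x := bt (p.2 / n))).comp p h3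
  have h5 : fderiv ℝ (cc (chi n)) p = _ := h4.fderiv
  unfold pd
  rw [h5]
  simp only [ContinuousLinearMap.comp_apply, smul_apply, ContinuousLinearMap.coe_snd',
    Complex.ofRealCLM_apply, smul_eq_mul]
  rw [div_eq_inv_mul e.2 n]

/-- invariance of the cut-off inside the fundamental region -/
theorem chi_inv {R : Subring ℂ} (hR : NiceRing R) {a n : ℝ} (ha : 0 < a) (hn : 1 / a ≤ n)
    {γ : SL2C} (hγ : γ ∈ Gam R) {p : Pt} (hp : p ∈ UH) (h1 : a ≤ p.2) (h2 : a ≤ (act γ p).2) :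
    chi n (act γ p) = chi n p := by
  have hn0 : 0 < n := lt_of_lt_of_le (by positivity) hn
  have hp' : (0 : ℝ) < p.2 := hp
  have hent := mem_Gam.mp hγ
  have hden := den_pos γ hp
  have hact : (act γ p).2 = p.2 / den γ p := rfl
  by_cases hc : γ 1 0 = 0
  · have hdet := Pool.Agent.Helper50.Ram.det_eq γ
    rw [hc, mul_zero, sub_zero] at hdet
    have ha0 : γ 0 0 ≠ 0 := fun h => by rw [h, zero_mul] at hdet; exact zero_ne_one hdet
    have hd0 : γ 1 1 ≠ 0 := fun h => by rw [h, mul_zero] at hdet; exact zero_ne_one hdet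
    have k1 := hR.disc _ (hent 0 0) ha0
    have k2 := hR.disc _ (hent 1 1) hd0
    have k3 : ‖γ 0 0‖ * ‖γ 1 1‖ = 1 := by rw [← norm_mul, hdet, norm_one]
    have k4 : ‖γ 1 1‖ = 1 := by nlinarith
    have hD : den γ p = 1 := by
      unfold den
      rw [hc, zero_mul, zero_add, k4, norm_zero]
      norm_num
    unfold chi
    rw [hact, hD, div_one]
  · have k1 := hR.disc _ (hent 1 0) hc
    have hge : p.2 ^ 2 ≤ den γ p := by
      unfold den
      have : 1 * p.2 ^ 2 ≤ ‖γ 1 0‖ ^ 2 * p.2 ^ 2 := by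
        refine mul_le_mul_of_nonneg_right ?_ (by positivity)
        nlinarith
      nlinarith [sq_nonneg ‖γ 1 0 * p.1 + γ 1 1‖]
    have hprod : (act γ p).2 * p.2 ≤ 1 := by
      rw [hact, div_mul_eq_mul_div, div_le_one hden]
      nlinarith
    have ha' : 0 < (act γ p).2 := lt_of_lt_of_le ha h2
    have hna : 1 ≤ n * a := by
      rw [div_le_iff₀ ha] at hn; exact hn
    have b1 : (act γ p).2 ≤ n := by
      have : (act γ p).2 * a ≤ 1 := le_trans (mul_le_mul_of_nonneg_left h1 ha'.le) hprod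
      by_contra hlt
      push Not at hlt
      nlinarith
    have b2 : p.2 ≤ n := by
      have : a * p.2 ≤ 1 := le_trans (mul_le_mul_of_nonneg_right h2 hp'.le) hprod
      by_contra hlt
      push Not at hlt
      nlinarith
    unfold chi
    rw [bt_one ((div_le_one hn0).mpr b1), bt_one ((div_le_one hn0).mpr b2)]

/-- pointwise Cauchy-Schwarz bound for the cut-off term -/
theorem cutoff_bound {ι : Type} [Fintype ι] (u : ι → Pt → ℂ) {D : ℝ}
    (hD : ∀ t, |t * deriv bt t| ≤ D) {n : ℝ} (hn : 0 < n) {ε : ℝ} (hε : 0 < ε) {p : Pt}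
    (hp : p ∈ UH) :
    2 * (chi n p * ‖Gop u (cc (chi n)) p‖)
      ≤ ε * (chi n p ^ 2 * Bf u p) + ε⁻¹ * (D ^ 2 * (Set.indicator {q : Pt | n ≤ q.2} (Af u) p)) := by
  have hp' : (0 : ℝ) < p.2 := hp
  have hχ : 0 ≤ chi n p := bt_nonneg _
  have hgd : ∀ i, ‖(starRingEnd ℂ) (u i p) * gdot (u i) (cc (chi n)) p‖
      = ‖u i p‖ * (p.2 * ‖pd e3 (u i) p‖) * |p.2 / n * deriv bt (p.2 / n)| := by
    intro i
    unfold gdot
    rw [pd_chi, pd_chi, pd_chi]
    have he1 : (e1 : Pt).2 = 0 := rfl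
    have he2 : (e2 : Pt).2 = 0 := rfl
    have he3 : (e3 : Pt).2 = 1 := rfl
    rw [he1, he2, he3]
    simp only [zero_div, mul_zero, Complex.ofReal_zero, zero_add]
    rw [norm_mul, norm_mul, norm_mul, norm_pow, RCLike.norm_conj, Complex.norm_real,
      Complex.norm_real, Real.norm_eq_abs, Real.norm_eq_abs, abs_of_pos hp', abs_mul, abs_mul,
      abs_div, abs_div, abs_of_pos hp', abs_of_pos hn]
    simp only [abs_one]
    field_simp
  have hsum : ‖Gop u (cc (chi n)) p‖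
      ≤ ∑ i, ‖u i p‖ * (p.2 * ‖pd e3 (u i) p‖) * |p.2 / n * deriv bt (p.2 / n)| := by
    unfold Gop
    refine le_trans (norm_sum_le _ _) (Finset.sum_le_sum fun i _ => (hgd i).le)
  set d := |p.2 / n * deriv bt (p.2 / n)| with hd
  have hd0 : 0 ≤ d := abs_nonneg _
  have hdD : d ≤ D := hD _
  have hdz : p.2 < n → d = 0 := by
    intro h
    have : p.2 / n < 1 := (div_lt_one hn).mpr h
    rw [hd, deriv_bt_low this, mul_zero, abs_zero]
  have hind : d ^ 2 * Af u p ≤ D ^ 2 * Set.indicator {q : Pt | n ≤ q.2} (Af u) p := by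
    by_cases h : n ≤ p.2
    · rw [Set.indicator_of_mem (by exact h)]
      exact mul_le_mul_of_nonneg_right (pow_le_pow_left₀ hd0 hdD 2) (Af_nonneg u p)
    · rw [Set.indicator_of_notMem (by exact h), hdz (not_le.mp h)]
      simp
  have hterm : ∀ i, 2 * (chi n p * (‖u i p‖ * (p.2 * ‖pd e3 (u i) p‖) * d))
      ≤ ε * (chi n p ^ 2 * gsq (u i) p) + ε⁻¹ * (d ^ 2 * ‖u i p‖ ^ 2) := by
    intro i
    have hg : (p.2 * ‖pd e3 (u i) p‖) ^ 2 ≤ gsq (u i) p := by
      unfold gsq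
      nlinarith [sq_nonneg (p.2 * ‖pd e1 (u i) p‖), sq_nonneg (p.2 * ‖pd e2 (u i) p‖)]
    set x := chi n p * (p.2 * ‖pd e3 (u i) p‖) with hx
    set y := ‖u i p‖ * d with hy
    have hxy : 2 * (x * y) ≤ ε * x ^ 2 + ε⁻¹ * y ^ 2 := by
      have h1 : 0 ≤ ε⁻¹ * (ε * x - y) ^ 2 := by positivity
      have h2 : ε⁻¹ * (ε * x - y) ^ 2 = ε * x ^ 2 - 2 * (x * y) + ε⁻¹ * y ^ 2 := by
        field_simp
        ring
      linarith
    have h3 : x ^ 2 ≤ chi n p ^ 2 * gsq (u i) p := by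
      rw [hx, mul_pow]
      exact mul_le_mul_of_nonneg_left hg (by positivity)
    have h4 : ε * x ^ 2 ≤ ε * (chi n p ^ 2 * gsq (u i) p) := mul_le_mul_of_nonneg_left h3 hε.le
    calc 2 * (chi n p * (‖u i p‖ * (p.2 * ‖pd e3 (u i) p‖) * d)) = 2 * (x * y) := by
          rw [hx, hy]; ring
      _ ≤ ε * x ^ 2 + ε⁻¹ * y ^ 2 := hxy
      _ ≤ ε * (chi n p ^ 2 * gsq (u i) p) + ε⁻¹ * y ^ 2 := by linarith
      _ = _ := by rw [hy]; ring
  calc 2 * (chi n p * ‖Gop u (cc (chi n)) p‖)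
      ≤ 2 * (chi n p * ∑ i, ‖u i p‖ * (p.2 * ‖pd e3 (u i) p‖) * d) := by
        have := mul_le_mul_of_nonneg_left hsum hχ
        linarith
    _ = ∑ i, 2 * (chi n p * (‖u i p‖ * (p.2 * ‖pd e3 (u i) p‖) * d)) := by
        rw [Finset.mul_sum, Finset.mul_sum]
    _ ≤ ∑ i, (ε * (chi n p ^ 2 * gsq (u i) p) + ε⁻¹ * (d ^ 2 * ‖u i p‖ ^ 2)) :=
        Finset.sum_le_sum fun i _ => hterm i
    _ = ε * (chi n p ^ 2 * Bf u p) + ε⁻¹ * (d ^ 2 * Af u p) := by
        rw [Finset.sum_add_distrib, ← Finset.mul_sum, ← Finset.mul_sum, ← Finset.mul_sum,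
          ← Finset.mul_sum]
        rfl
    _ ≤ _ := by
        have := mul_le_mul_of_nonneg_left hind (inv_pos.mpr hε).le
        linarith

end Pool.Agent.Helper9.Ram
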